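import Pool.Agent.PFC.StmtsB4b

/-! Squad PFC, block B4b, row QTM (helper67): tensor products of split Brauer quotients. -/

open scoped BigOperators TensorProduct

noncomputable section

namespace Pool.Agent.PFC.H67

open Pool.Agent.PFC

variable {F V M M' : Type} [Field F] [Group V]
  [AddCommGroup M] [Module F M] [AddCommGroup M'] [Module F M']

theorem tns_apply (ρ : V →* (M →ₗ[F] M)) (σ : V →* (M' →ₗ[F] M')) (v : V) :
    tns ρ σ v = TensorProduct.map (ρ v) (σ v) := rfl

theorem comp_inv_self (ρ : V →* (M →ₗ[F] M)) (v : V) : ρ v ∘ₗ ρ v⁻¹ = LinearMap.id := by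
  have h : ρ v * ρ v⁻¹ = 1 := by rw [← map_mul, mul_inv_cancel, map_one]
  exact h

theorem map_sum_left (S : Finset V) (f : V → (M →ₗ[F] M)) (u : M' →ₗ[F] M') :
    TensorProduct.map (∑ y ∈ S, f y) u = ∑ y ∈ S, TensorProduct.map (f y) u := by
  classical
  induction S using Finset.induction_on with
  | empty => rw [Finset.sum_empty, Finset.sum_empty, TensorProduct.map_zero_left]
  | insert a S ha ih =>
    rw [Finset.sum_insert ha, Finset.sum_insert ha, TensorProduct.map_add_left, ih]

theorem map_sum_right (S : Finset V) (f : V → (M' →ₗ[F] M')) (u : M →ₗ[F] M) :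
    TensorProduct.map u (∑ y ∈ S, f y) = ∑ y ∈ S, TensorProduct.map u (f y) := by
  classical
  induction S using Finset.induction_on with
  | empty => rw [Finset.sum_empty, Finset.sum_empty, TensorProduct.map_zero_right]
  | insert a S ha ih =>
    rw [Finset.sum_insert ha, Finset.sum_insert ha, TensorProduct.map_add_right, ih]

theorem pt_left (ρ : V →* (M →ₗ[F] M)) (σ : V →* (M' →ₗ[F] M')) (Q : Subgroup V)
    (T : M →ₗ[F] M) (hT : T ∈ PT ρ Q) (u : M' →ₗ[F] M')
    (hu : ∀ v m, u (σ v m) = σ v (u m)) :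
    TensorProduct.map T u ∈ PT (tns ρ σ) Q := by
  unfold PT at hT
  induction hT using Submodule.span_induction with
  | zero =>
    rw [TensorProduct.map_zero_left]
    exact Submodule.zero_mem _
  | add x y _ _ hx hy =>
    rw [TensorProduct.map_add_left]
    exact Submodule.add_mem _ hx hy
  | smul c x _ hx =>
    rw [TensorProduct.map_smul_left]
    exact Submodule.smul_mem _ c hx
  | mem x hx =>
    obtain ⟨K, S, h, hK, hS, hc, hx⟩ := hx
    refine Submodule.subset_span ⟨K, S, TensorProduct.map h u, hK, hS, ?_, ?_⟩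
    · intro k hk m
      rw [tns_apply, ← LinearMap.comp_apply, ← LinearMap.comp_apply, ← TensorProduct.map_comp,
        ← TensorProduct.map_comp]
      have e1 : ρ k ∘ₗ h = h ∘ₗ ρ k := LinearMap.ext fun m => hc k hk m
      have e2 : σ k ∘ₗ u = u ∘ₗ σ k := LinearMap.ext fun m => (hu k m).symm
      rw [e1, e2]
    · intro m
      have e0 : x = ∑ y ∈ S, ρ y ∘ₗ (h ∘ₗ ρ y⁻¹) := by
        ext m
        rw [hx m, LinearMap.sum_apply]
        rfl
      have e3 : ∀ y : V, σ y ∘ₗ (u ∘ₗ σ y⁻¹) = u := by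
        intro y
        have e2 : u ∘ₗ σ y⁻¹ = σ y⁻¹ ∘ₗ u := LinearMap.ext fun m => hu y⁻¹ m
        rw [e2, ← LinearMap.comp_assoc, comp_inv_self, LinearMap.id_comp]
      have e4 : TensorProduct.map x u =
          ∑ y ∈ S, TensorProduct.map (ρ y) (σ y) ∘ₗ
            (TensorProduct.map h u ∘ₗ TensorProduct.map (ρ y⁻¹) (σ y⁻¹)) := by
        have e5 : ∀ y ∈ S, TensorProduct.map (ρ y) (σ y) ∘ₗ
            (TensorProduct.map h u ∘ₗ TensorProduct.map (ρ y⁻¹) (σ y⁻¹)) =
            TensorProduct.map (ρ y ∘ₗ (h ∘ₗ ρ y⁻¹)) u := by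
          intro y _
          rw [← TensorProduct.map_comp, ← TensorProduct.map_comp, e3]
        rw [Finset.sum_congr rfl e5, e0]
        exact map_sum_left S _ u
      rw [e4, LinearMap.sum_apply]
      rfl

theorem pt_right (ρ : V →* (M →ₗ[F] M)) (σ : V →* (M' →ₗ[F] M')) (Q : Subgroup V)
    (T : M' →ₗ[F] M') (hT : T ∈ PT σ Q) (u : M →ₗ[F] M)
    (hu : ∀ v m, u (ρ v m) = ρ v (u m)) :
    TensorProduct.map u T ∈ PT (tns ρ σ) Q := by
  unfold PT at hT
  induction hT using Submodule.span_induction with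
  | zero =>
    rw [TensorProduct.map_zero_right]
    exact Submodule.zero_mem _
  | add x y _ _ hx hy =>
    rw [TensorProduct.map_add_right]
    exact Submodule.add_mem _ hx hy
  | smul c x _ hx =>
    rw [TensorProduct.map_smul_right]
    exact Submodule.smul_mem _ c hx
  | mem x hx =>
    obtain ⟨K, S, h, hK, hS, hc, hx⟩ := hx
    refine Submodule.subset_span ⟨K, S, TensorProduct.map u h, hK, hS, ?_, ?_⟩
    · intro k hk m
      rw [tns_apply, ← LinearMap.comp_apply, ← LinearMap.comp_apply, ← TensorProduct.map_comp,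
        ← TensorProduct.map_comp]
      have e1 : σ k ∘ₗ h = h ∘ₗ σ k := LinearMap.ext fun m => hc k hk m
      have e2 : ρ k ∘ₗ u = u ∘ₗ ρ k := LinearMap.ext fun m => (hu k m).symm
      rw [e1, e2]
    · intro m
      have e0 : x = ∑ y ∈ S, σ y ∘ₗ (h ∘ₗ σ y⁻¹) := by
        ext m
        rw [hx m, LinearMap.sum_apply]
        rfl
      have e3 : ∀ y : V, ρ y ∘ₗ (u ∘ₗ ρ y⁻¹) = u := by
        intro y
        have e2 : u ∘ₗ ρ y⁻¹ = ρ y⁻¹ ∘ₗ u := LinearMap.ext fun m => hu y⁻¹ m
        rw [e2, ← LinearMap.comp_assoc, comp_inv_self, LinearMap.id_comp]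
      have e4 : TensorProduct.map u x =
          ∑ y ∈ S, TensorProduct.map (ρ y) (σ y) ∘ₗ
            (TensorProduct.map u h ∘ₗ TensorProduct.map (ρ y⁻¹) (σ y⁻¹)) := by
        have e5 : ∀ y ∈ S, TensorProduct.map (ρ y) (σ y) ∘ₗ
            (TensorProduct.map u h ∘ₗ TensorProduct.map (ρ y⁻¹) (σ y⁻¹)) =
            TensorProduct.map u (σ y ∘ₗ (h ∘ₗ σ y⁻¹)) := by
          intro y _
          rw [← TensorProduct.map_comp, ← TensorProduct.map_comp, e3]
        rw [Finset.sum_congr rfl e5, e0]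
        exact map_sum_right S _ u
      rw [e4, LinearMap.sum_apply]
      rfl

theorem qtm : QtmStmt := by
  intro F V M N M' N' _ _ _ _ _ _ _ _ _ _ _ ρ ρ' σ σ' Q β s β' s' h h'
  have hbs : β ∘ₗ s = LinearMap.id := LinearMap.ext h.bs
  have hbs' : β' ∘ₗ s' = LinearMap.id := LinearMap.ext h'.bs
  refine ⟨?_, ?_, ?_, ?_, ?_⟩
  · intro n
    rw [← LinearMap.comp_apply, ← TensorProduct.map_comp, hbs, hbs', TensorProduct.map_id]
    rfl
  · intro v m
    rw [tns_apply, tns_apply, ← LinearMap.comp_apply, ← LinearMap.comp_apply,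
      ← TensorProduct.map_comp, ← TensorProduct.map_comp]
    have e1 : β ∘ₗ ρ v = ρ' v ∘ₗ β := LinearMap.ext fun m => h.eb v m
    have e2 : β' ∘ₗ σ v = σ' v ∘ₗ β' := LinearMap.ext fun m => h'.eb v m
    rw [e1, e2]
  · intro v m
    rw [tns_apply, tns_apply, ← LinearMap.comp_apply, ← LinearMap.comp_apply,
      ← TensorProduct.map_comp, ← TensorProduct.map_comp]
    have e1 : s ∘ₗ ρ' v = ρ v ∘ₗ s := LinearMap.ext fun m => h.es v m
    have e2 : s' ∘ₗ σ' v = σ v ∘ₗ s' := LinearMap.ext fun m => h'.es v m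
    rw [e1, e2]
  · intro q hq n
    have e1 : ρ' q = LinearMap.id := LinearMap.ext fun m => h.tr q hq m
    have e2 : σ' q = LinearMap.id := LinearMap.ext fun m => h'.tr q hq m
    rw [tns_apply, e1, e2, TensorProduct.map_id]
    rfl
  · have key : LinearMap.id - TensorProduct.map s s' ∘ₗ TensorProduct.map β β' =
        TensorProduct.map (LinearMap.id - s ∘ₗ β) (LinearMap.id : M' →ₗ[F] M') +
          TensorProduct.map (s ∘ₗ β) (LinearMap.id - s' ∘ₗ β') := by
      rw [← TensorProduct.map_comp]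
      apply TensorProduct.ext'
      intro x y
      simp only [LinearMap.sub_apply, LinearMap.add_apply, TensorProduct.map_tmul,
        LinearMap.id_apply, LinearMap.comp_apply, TensorProduct.sub_tmul, TensorProduct.tmul_sub]
      abel
    rw [key]
    refine Submodule.add_mem _ ?_ ?_
    · exact pt_left ρ σ Q _ h.hg _ fun v m => rfl
    · refine pt_right ρ σ Q _ h'.hg _ fun v m => ?_
      rw [LinearMap.comp_apply, LinearMap.comp_apply, h.eb, h.es]

end Pool.Agent.PFC.H67
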